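import Mathlib

/-!
# Blocks of zeros over an extension field and over the base field
-/

set_option autoImplicit false

namespace Pool.Agent.Y787.ZB
open Module

variable {k K : Type} [Field k] [Field K] [Algebra k K]

variable (k) in
/-- stable under the automorphisms -/
def Stable {n : ℕ} (V : Submodule K (Fin n → K)) : Prop :=
  ∀ σ : K ≃ₐ[k] K, ∀ v ∈ V, (fun i => σ (v i)) ∈ V

open Classical in
/-- the fixed vectors span a stable space -/
theorem mem_span_fixed (hfix : ∀ x : K, (∀ σ : K ≃ₐ[k] K, σ x = x) → ∃ y : k, algebraMap k K y = x)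
    {n : ℕ} (V : Submodule K (Fin n → K)) (hV : Stable k V) (m : ℕ) :
    ∀ v ∈ V, (Finset.univ.filter fun i => v i ≠ 0).card ≤ m →
      v ∈ Submodule.span K {u : Fin n → K | u ∈ V ∧ ∃ y : Fin n → k, u = fun i => algebraMap k K (y i)} := by
  induction m with
  | zero =>
    intro v _ hv
    have h1 : v = 0 := by
      funext i
      by_contra hi
      have : i ∈ Finset.univ.filter fun i => v i ≠ 0 := by simpa using hi
      rw [Nat.le_zero, Finset.card_eq_zero] at hv
      rw [hv] at this
      exact absurd this (Finset.notMem_empty i)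
    rw [h1]
    exact Submodule.zero_mem _
  | succ m ih =>
    intro v hvV hvm
    by_cases hv0 : v = 0
    · rw [hv0]; exact Submodule.zero_mem _
    set S : Set (Fin n → K) := {u | u ∈ V ∧ u ≠ 0 ∧ ∀ i, u i ≠ 0 → v i ≠ 0} with hS
    obtain ⟨u, ⟨huV, hu0, husupp⟩, humin⟩ := WellFounded.has_min
      (measure (fun u : Fin n → K => (Finset.univ.filter fun i => u i ≠ 0).card)).wf S
      ⟨v, hvV, hv0, fun i hi => hi⟩
    obtain ⟨i₀, hi₀⟩ : ∃ i, u i ≠ 0 := by
      by_contra h
      push Not at h
      exact hu0 (funext h)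
    set u' : Fin n → K := (u i₀)⁻¹ • u with hu'
    have hu'V : u' ∈ V := V.smul_mem _ huV
    have hu'i : u' i₀ = 1 := by
      rw [hu', Pi.smul_apply, smul_eq_mul, inv_mul_cancel₀ hi₀]
    have hu's : ∀ i, u' i ≠ 0 → u i ≠ 0 := by
      intro i hi h
      apply hi
      rw [hu', Pi.smul_apply, h, smul_zero]
    have hfixed : ∀ σ : K ≃ₐ[k] K, ∀ i, σ (u' i) = u' i := by
      intro σ
      by_contra hcon
      push Not at hcon
      obtain ⟨i₁, hi₁⟩ := hcon
      have hw : (fun i => σ (u' i)) - u' ∈ S := by
        refine ⟨V.sub_mem (hV σ u' hu'V) hu'V, ?_, ?_⟩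
        · intro h
          have := congrFun h i₁
          rw [Pi.sub_apply, Pi.zero_apply, sub_eq_zero] at this
          exact hi₁ this
        · intro i hi
          apply husupp
          apply hu's
          intro h
          apply hi
          rw [Pi.sub_apply, h, map_zero, sub_zero]
      apply humin _ hw
      change (Finset.univ.filter fun i => ((fun i => σ (u' i)) - u') i ≠ 0).card <
        (Finset.univ.filter fun i => u i ≠ 0).card
      apply Finset.card_lt_card
      rw [Finset.ssubset_iff_of_subset]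
      · refine ⟨i₀, by simpa using hi₀, ?_⟩
        simp only [Finset.mem_filter, Finset.mem_univ, true_and, not_not, Pi.sub_apply, hu'i,
          map_one, sub_self]
      · intro i hi
        simp only [Finset.mem_filter, Finset.mem_univ, true_and] at hi ⊢
        apply hu's
        intro h
        apply hi
        rw [Pi.sub_apply, h, map_zero, sub_zero]
    choose y hy using fun i => hfix (u' i) fun σ => hfixed σ i
    have hu'mem : u' ∈ Submodule.span K {u : Fin n → K | u ∈ V ∧
        ∃ y : Fin n → k, u = fun i => algebraMap k K (y i)} :=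
      Submodule.subset_span ⟨hu'V, y, funext fun i => (hy i).symm⟩
    have h2 := ih (v - v i₀ • u') (V.sub_mem hvV (V.smul_mem _ hu'V)) (by
      have h3 : (Finset.univ.filter fun i => (v - v i₀ • u') i ≠ 0) ⊂
          (Finset.univ.filter fun i => v i ≠ 0) := by
        rw [Finset.ssubset_iff_of_subset]
        · refine ⟨i₀, by simpa using husupp i₀ hi₀, ?_⟩
          simp only [Finset.mem_filter, Finset.mem_univ, true_and, not_not, Pi.sub_apply,
            Pi.smul_apply, hu'i, smul_eq_mul, mul_one, sub_self]
        · intro i hi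
          simp only [Finset.mem_filter, Finset.mem_univ, true_and] at hi ⊢
          by_contra h
          apply hi
          have h4 : u' i = 0 := by
            by_contra h5
            exact husupp i (hu's i h5) h
          rw [Pi.sub_apply, Pi.smul_apply, h, h4, smul_zero, sub_zero]
      have := Finset.card_lt_card h3
      omega)
    have h3 : v = (v - v i₀ • u') + v i₀ • u' := by abel
    rw [h3]
    exact Submodule.add_mem _ h2 (Submodule.smul_mem _ _ hu'mem)

/-- a stable space has a basis over the base field -/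
theorem exists_rat (hfix : ∀ x : K, (∀ σ : K ≃ₐ[k] K, σ x = x) → ∃ y : k, algebraMap k K y = x)
    {n : ℕ} (V : Submodule K (Fin n → K)) (hV : Stable k V) :
    ∃ y : Fin (finrank K V) → Fin n → k, LinearIndependent k y ∧
      ∀ t, (fun i => algebraMap k K (y t i)) ∈ V := by
  classical
  let Φ : (Fin n → k) →ₗ[k] (Fin n → K) :=
    { toFun := fun y i => algebraMap k K (y i)
      map_add' := fun y z => by funext i; simp
      map_smul' := fun c y => by funext i; simp [Algebra.smul_def] }
  let V0 : Submodule k (Fin n → k) := (V.restrictScalars k).comap Φ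
  have hle : finrank K V ≤ finrank k V0 := by
    let B := Module.finBasis k V0
    have h1 : V ≤ Submodule.span K (Set.range fun t => Φ (B t : Fin n → k)) := by
      intro v hv
      have h2 := mem_span_fixed hfix V hV n v hv
        ((Finset.card_le_univ _).trans (le_of_eq (Fintype.card_fin n)))
      refine (Submodule.span_le.2 ?_) h2
      rintro u ⟨huV, y, rfl⟩
      have hy : y ∈ V0 := huV
      have h3 := congrArg (fun z : V0 => Φ (z : Fin n → k)) (B.sum_repr ⟨y, hy⟩)
      simp only [Submodule.coe_sum, Submodule.coe_smul, map_sum, map_smul] at h3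
      change Φ y ∈ _
      rw [← h3]
      refine Submodule.sum_mem _ fun t _ => ?_
      rw [← algebraMap_smul K]
      exact Submodule.smul_mem _ _ (Submodule.subset_span ⟨t, rfl⟩)
    have h2 := Submodule.finrank_mono h1
    have h3 := finrank_range_le_card (R := K) fun t => Φ (B t : Fin n → k)
    rw [Fintype.card_fin] at h3
    exact h2.trans h3
  let B := Module.finBasis k V0
  refine ⟨fun t => (B (Fin.castLE hle t) : Fin n → k), ?_, fun t => ?_⟩
  · have h6 := B.linearIndependent.map' V0.subtype (Submodule.ker_subtype _)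
    exact h6.comp _ (Fin.castLE_injective hle)
  · exact (B (Fin.castLE hle t)).2

/-- the space `V` moved by an automorphism -/
def tw {n : ℕ} (σ : K ≃ₐ[k] K) (V : Submodule K (Fin n → K)) : Submodule K (Fin n → K) where
  carrier := {v | (fun i => σ.symm (v i)) ∈ V}
  add_mem' := by
    intro v w hv hw
    have h1 : (fun i => σ.symm ((v + w) i)) = (fun i => σ.symm (v i)) + fun i => σ.symm (w i) := by
      funext i
      simp
    change _ ∈ V
    rw [h1]
    exact V.add_mem hv hw
  zero_mem' := by
    have h1 : (fun i : Fin n => σ.symm ((0 : Fin n → K) i)) = 0 := by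
      funext i
      simp
    change _ ∈ V
    rw [h1]
    exact V.zero_mem
  smul_mem' := by
    intro c v hv
    have h1 : (fun i => σ.symm ((c • v) i)) = σ.symm c • fun i => σ.symm (v i) := by
      funext i
      simp
    change _ ∈ V
    rw [h1]
    exact V.smul_mem _ hv

theorem mem_tw {n : ℕ} {σ : K ≃ₐ[k] K} {V : Submodule K (Fin n → K)} {v : Fin n → K} :
    v ∈ tw σ V ↔ (fun i => σ.symm (v i)) ∈ V := Iff.rfl

theorem tw_finrank {n : ℕ} (σ : K ≃ₐ[k] K) (V : Submodule K (Fin n → K)) :
    finrank K V ≤ finrank K (tw σ V) := by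
  classical
  let B := Module.finBasis K V
  have hmem : ∀ t, (fun i => σ ((B t : Fin n → K) i)) ∈ tw σ V := by
    intro t
    rw [mem_tw]
    have : (fun i => σ.symm (σ ((B t : Fin n → K) i))) = (B t : Fin n → K) := by
      funext i
      simp
    rw [this]
    exact (B t).2
  have h1 : LinearIndependent K fun t => (⟨_, hmem t⟩ : tw σ V) := by
    rw [Fintype.linearIndependent_iff]
    intro g hg t
    have h2 := B.linearIndependent.map' V.subtype (Submodule.ker_subtype _)
    rw [Fintype.linearIndependent_iff] at h2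
    have h3 := h2 (fun t => σ.symm (g t)) (by
      funext i
      have h4 := congrArg (fun z : tw σ V => σ.symm ((z : Fin n → K) i)) hg
      simp only [Submodule.coe_sum, Submodule.coe_smul, Finset.sum_apply, Pi.smul_apply,
        smul_eq_mul, map_sum, map_mul, AlgEquiv.symm_apply_apply, Submodule.coe_zero,
        Pi.zero_apply, map_zero] at h4
      rw [Finset.sum_apply]
      exact h4) t
    simpa using h3
  have h2 := h1.fintype_card_le_finrank
  rwa [Fintype.card_fin] at h2

/-- all the forms `A j` vanish on `W × V` -/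
def Ann {n : ℕ} {J : Type} (A : J → Fin n → Fin n → k) (W V : Submodule K (Fin n → K)) : Prop :=
  ∀ j, ∀ w ∈ W, ∀ v ∈ V, ∑ i, ∑ i', w i * algebraMap k K (A j i i') * v i' = 0

theorem Ann.tw {n : ℕ} {J : Type} {A : J → Fin n → Fin n → k} {W V : Submodule K (Fin n → K)}
    (h : Ann A W V) (σ : K ≃ₐ[k] K) : Ann A (ZB.tw σ W) (ZB.tw σ V) := by
  intro j w hw v hv
  have h1 := h j _ hw _ hv
  have h2 := congrArg σ h1
  simp only [map_sum, map_mul, map_zero, AlgEquiv.apply_symm_apply, AlgEquiv.commutes] at h2
  exact h2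

theorem Ann.sup_inf {n : ℕ} {J : Type} {A : J → Fin n → Fin n → k}
    {W V W' V' : Submodule K (Fin n → K)}
    (h : Ann A W V) (h' : Ann A W' V') : Ann A (W ⊔ W') (V ⊓ V') := by
  intro j w hw v hv
  obtain ⟨w1, hw1, w2, hw2, rfl⟩ := Submodule.mem_sup.1 hw
  have h1 := h j w1 hw1 v hv.1
  have h2 := h' j w2 hw2 v hv.2
  simp only [Pi.add_apply, add_mul, Finset.sum_add_distrib]
  rw [h1, h2, add_zero]

theorem Ann.inf_sup {n : ℕ} {J : Type} {A : J → Fin n → Fin n → k}
    {W V W' V' : Submodule K (Fin n → K)}
    (h : Ann A W V) (h' : Ann A W' V') : Ann A (W ⊓ W') (V ⊔ V') := by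
  intro j w hw v hv
  obtain ⟨v1, hv1, v2, hv2, rfl⟩ := Submodule.mem_sup.1 hv
  have h1 := h j w hw.1 v1 hv1
  have h2 := h' j w hw.2 v2 hv2
  simp only [Pi.add_apply, mul_add, Finset.sum_add_distrib]
  rw [h1, h2, add_zero]

/-- **Descent of zero blocks.** -/
theorem block_descent
    (hfix : ∀ x : K, (∀ σ : K ≃ₐ[k] K, σ x = x) → ∃ y : k, algebraMap k K y = x)
    {n : ℕ} {J : Type} (A : J → Fin n → Fin n → k) (W V : Submodule K (Fin n → K))
    (h : Ann A W V) (hWV : n + 1 ≤ finrank K W + finrank K V) :
    ∃ (a b : ℕ) (w : Fin a → Fin n → k) (v : Fin b → Fin n → k), a + b = n + 1 ∧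
      LinearIndependent k w ∧ LinearIndependent k v ∧
      ∀ s t j, ∑ i, ∑ i', w s i * A j i i' * v t i' = 0 := by
  classical
  have hle : ∀ V : Submodule K (Fin n → K), finrank K V ≤ n := by
    intro V
    have := Submodule.finrank_le V
    rwa [Module.finrank_fintype_fun_eq_card, Fintype.card_fin] at this
  let f : Submodule K (Fin n → K) × Submodule K (Fin n → K) → ℕ := fun p =>
    (finrank K p.1 + finrank K p.2) * (n + 1) + (n - finrank K p.2)
  have hf : ∀ p, f p ≤ 2 * n * (n + 1) + n := by
    intro p
    have h1 : (finrank K p.1 + finrank K p.2) * (n + 1) ≤ 2 * n * (n + 1) :=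
      Nat.mul_le_mul_right _ (by have := hle p.1; have := hle p.2; omega)
    change (finrank K p.1 + finrank K p.2) * (n + 1) + (n - finrank K p.2) ≤ _
    omega
  obtain ⟨p, hp, hpmax⟩ := WellFounded.has_min
    (measure (fun p => 2 * n * (n + 1) + n - f p)).wf {p | Ann A p.1 p.2} ⟨(W, V), h⟩
  have hmax : ∀ q : Submodule K (Fin n → K) × Submodule K (Fin n → K), Ann A q.1 q.2 →
      f q ≤ f p := by
    intro q hq
    have h1 := hpmax q hq
    change ¬ (2 * n * (n + 1) + n - f q < 2 * n * (n + 1) + n - f p) at h1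
    have := hf p
    have := hf q
    omega
  obtain ⟨W₁, V₁⟩ := p
  have hp : Ann A W₁ V₁ := hp
  have hs : ∀ W' V' : Submodule K (Fin n → K), Ann A W' V' →
      finrank K W' + finrank K V' ≤ finrank K W₁ + finrank K V₁ := by
    intro W' V' hq
    have h1 := hmax (W', V') hq
    change (finrank K W' + finrank K V') * (n + 1) + (n - finrank K V') ≤
      (finrank K W₁ + finrank K V₁) * (n + 1) + (n - finrank K V₁) at h1
    by_contra hcon
    push Not at hcon
    have h2 : (finrank K W₁ + finrank K V₁ + 1) * (n + 1) ≤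
        (finrank K W' + finrank K V') * (n + 1) := Nat.mul_le_mul_right _ hcon
    rw [Nat.add_mul (finrank K W₁ + finrank K V₁) 1] at h2
    omega
  have hs2 : ∀ W' V' : Submodule K (Fin n → K), Ann A W' V' →
      finrank K W₁ + finrank K V₁ ≤ finrank K W' + finrank K V' →
      finrank K V₁ ≤ finrank K V' := by
    intro W' V' hq hge
    have h1 := hmax (W', V') hq
    change (finrank K W' + finrank K V') * (n + 1) + (n - finrank K V') ≤
      (finrank K W₁ + finrank K V₁) * (n + 1) + (n - finrank K V₁) at h1
    have h2 : (finrank K W₁ + finrank K V₁) * (n + 1) ≤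
        (finrank K W' + finrank K V') * (n + 1) := Nat.mul_le_mul_right _ hge
    have := hle V₁
    have := hle V'
    omega
  -- stability
  have key : ∀ σ : K ≃ₐ[k] K, V₁ ≤ tw σ V₁ ∧ tw σ W₁ ≤ W₁ := by
    intro σ
    have h1 := hp.sup_inf (hp.tw σ)
    have h2 := hp.inf_sup (hp.tw σ)
    have h3 := hs _ _ h1
    have h4 := hs _ _ h2
    have h5 := Submodule.finrank_sup_add_finrank_inf_eq W₁ (tw σ W₁)
    have h6 := Submodule.finrank_sup_add_finrank_inf_eq V₁ (tw σ V₁)
    have h7 := tw_finrank σ W₁
    have h8 := tw_finrank σ V₁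
    have h9 : finrank K W₁ + finrank K V₁ ≤ finrank K (W₁ ⊔ tw σ W₁ : Submodule K (Fin n → K)) +
        finrank K (V₁ ⊓ tw σ V₁ : Submodule K (Fin n → K)) := by omega
    have h10 := hs2 _ _ h1 h9
    have h11 : V₁ ⊓ tw σ V₁ = V₁ := Submodule.eq_of_le_of_finrank_le inf_le_left h10
    have h12 : finrank K (W₁ ⊔ tw σ W₁ : Submodule K (Fin n → K)) ≤ finrank K W₁ := by
      rw [h11] at h3
      omega
    have h13 : W₁ = W₁ ⊔ tw σ W₁ := Submodule.eq_of_le_of_finrank_le le_sup_left h12
    constructor
    · exact le_trans (le_of_eq h11.symm) inf_le_right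
    · exact le_trans le_sup_right (le_of_eq h13.symm)
  have hVs : Stable k V₁ := by
    intro σ v hv
    have h1 := (key σ.symm).1 hv
    rw [mem_tw] at h1
    simpa using h1
  have hWs : Stable k W₁ := by
    intro σ v hv
    apply (key σ).2
    rw [mem_tw]
    simpa using hv
  obtain ⟨w, hw1, hw2⟩ := exists_rat hfix W₁ hWs
  obtain ⟨v, hv1, hv2⟩ := exists_rat hfix V₁ hVs
  have hsum := hs W V h
  have hV1n := hle V₁
  have hle2 : n + 1 - finrank K V₁ ≤ finrank K W₁ := by omega
  refine ⟨n + 1 - finrank K V₁, finrank K V₁, fun s => w (Fin.castLE hle2 s), v, by omega,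
    hw1.comp _ (Fin.castLE_injective hle2), hv1, fun s t j => ?_⟩
  apply (algebraMap k K).injective
  rw [map_zero, ← hp j _ (hw2 (Fin.castLE hle2 s)) _ (hv2 t)]
  simp only [map_sum, map_mul]

end Pool.Agent.Y787.ZB
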