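import Pool.Agent.Y787.ZB.Fam
import Pool.Agent.Y787.ZB.Desc
import Pool.Agent.TH519.HS.SgC

/-!
# Counting singular matrices without zero block
-/

set_option autoImplicit false

namespace Pool.Agent.Y787.ZB
open Filter Module Pool.Agent.Y787.GL Pool.Agent.Y787.FE Pool.Agent.Y787.HS
open Pool.Agent.TH519.GL
open Pool.Agent.TH519.HS (box mem_box card_box sing_finite)
open Pool.Agent.Y787 (QC mem_QC HypC hyperplane hyperplane' Lt_one baker')

variable {Cc : Type} [Field Cc] [CharZero Cc]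

/-- the fixed elements of the Galois group -/
theorem fixed_rat [IsAlgClosed Cc] (x : QC Cc) (h : ∀ σ : QC Cc ≃ₐ[ℚ] QC Cc, σ x = x) :
    ∃ y : ℚ, algebraMap ℚ (QC Cc) y = x := by
  have h1 : IsAlgClosure ℚ (QC Cc) := algebraicClosure.isAlgClosure ℚ Cc
  have h2 : IsGalois ℚ (QC Cc) := inferInstance
  exact (InfiniteGalois.mem_range_algebraMap_iff_fixed (k := ℚ) (K := QC Cc) x).2 h

/-- a block of zeros after rational changes of basis -/
def RBlk {n : ℕ} (m : Fin n × Fin n → Cc) : Prop :=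
  ∃ (a b : ℕ) (w : Fin a → Fin n → ℚ) (v : Fin b → Fin n → ℚ), a + b = n + 1 ∧
    LinearIndependent ℚ w ∧ LinearIndependent ℚ v ∧
    ∀ s t, ∑ i, ∑ j, (w s i : Cc) * m (i, j) * (v t j : Cc) = 0

theorem zero_of_sum' {N n : ℕ} {l : Fin N → Cc} (hl : LinearIndependent (QC Cc) l)
    (w v : Fin n → QC Cc) (B : Fin n → Fin n → Fin N → ℤ)
    (h : ∑ i, ∑ j, (w i : Cc) * (∑ k, (B i j k : Cc) * l k) * (v j : Cc) = 0) (k : Fin N) :
    ∑ i, ∑ j, w i * (B i j k : QC Cc) * v j = 0 := by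
  rw [Fintype.linearIndependent_iff] at hl
  refine hl (fun k => ∑ i, ∑ j, w i * (B i j k : QC Cc) * v j) ?_ k
  rw [← h]
  have h1 : ∀ i j, (w i : Cc) * (∑ k, (B i j k : Cc) * l k) * (v j : Cc) =
      ∑ k, (w i : Cc) * (B i j k : Cc) * (v j : Cc) * l k := by
    intro i j
    rw [Finset.mul_sum, Finset.sum_mul]
    refine Finset.sum_congr rfl fun k _ => ?_
    ring
  simp only [h1]
  have h2 : ∀ i, ∑ j, ∑ k, (w i : Cc) * (B i j k : Cc) * (v j : Cc) * l k =
      ∑ k, ∑ j, (w i : Cc) * (B i j k : Cc) * (v j : Cc) * l k := fun i => Finset.sum_comm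
  simp only [h2]
  rw [Finset.sum_comm]
  refine Finset.sum_congr rfl fun k _ => ?_
  rw [Algebra.smul_def, map_sum, Finset.sum_mul]
  refine Finset.sum_congr rfl fun i _ => ?_
  rw [map_sum, Finset.sum_mul]
  refine Finset.sum_congr rfl fun j _ => ?_
  rw [map_mul, map_mul, map_intCast]
  rfl

/-- descent of blocks -/
theorem Blk.rat [IsAlgClosed Cc] {N n : ℕ} {l : Fin N → Cc} (hl : LinearIndependent (QC Cc) l)
    (B : Fin n → Fin n → Fin N → ℤ)
    (h : Blk (fun p : Fin n × Fin n => ∑ k, (B p.1 p.2 k : Cc) * l k)) :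
    RBlk (fun p : Fin n × Fin n => ∑ k, (B p.1 p.2 k : Cc) * l k) := by
  obtain ⟨W, V, h1, h2⟩ := h
  obtain ⟨a, b, w, v, hab, hw, hv, h3⟩ := block_descent (k := ℚ) (K := QC Cc)
    (fun x hx => fixed_rat x hx) (J := Fin N) (fun k i j => (B i j k : ℚ)) W V (by
      intro k w hw v hv
      have h4 := zero_of_sum' hl w v B (h2 w hw v hv) k
      rw [← h4]
      refine Finset.sum_congr rfl fun i _ => Finset.sum_congr rfl fun j _ => ?_
      rw [map_intCast]) h1
  refine ⟨a, b, w, v, hab, hw, hv, fun s t => ?_⟩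
  have h5 : ∀ i j, (w s i : Cc) * (∑ k, (B i j k : Cc) * l k) * (v t j : Cc) =
      ∑ k, (w s i : Cc) * (B i j k : Cc) * (v t j : Cc) * l k := by
    intro i j
    rw [Finset.mul_sum, Finset.sum_mul]
    refine Finset.sum_congr rfl fun k _ => ?_
    ring
  simp only [h5]
  have h6 : ∀ i, ∑ j, ∑ k, (w s i : Cc) * (B i j k : Cc) * (v t j : Cc) * l k =
      ∑ k, ∑ j, (w s i : Cc) * (B i j k : Cc) * (v t j : Cc) * l k := fun i => Finset.sum_comm
  simp only [h6]
  rw [Finset.sum_comm]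
  refine Finset.sum_eq_zero fun k _ => ?_
  have h7 : ∑ i, ∑ j, (w s i : Cc) * (B i j k : Cc) * (v t j : Cc) * l k =
      ((∑ i, ∑ j, w s i * (B i j k : ℚ) * v t j : ℚ) : Cc) * l k := by
    push_cast
    rw [Finset.sum_mul]
    refine Finset.sum_congr rfl fun i _ => ?_
    rw [Finset.sum_mul]
  rw [h7, h3 s t k, Rat.cast_zero, zero_mul]

theorem sing_lower' {n N : ℕ} (hn : 1 ≤ n) (l : Fin N → Cc) (H : ℕ) :
    H ^ ((n - 1) * n * N) ≤ Set.ncard {A : Fin n → Fin n → Fin N → ℤ |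
      (∀ i j k, |A i j k| ≤ H) ∧
      (Matrix.of fun i j => ∑ k, (A i j k : Cc) * l k).det = 0} := by
  classical
  obtain ⟨m, rfl⟩ : ∃ m, n = m + 1 := ⟨n - 1, by omega⟩
  rw [Nat.add_sub_cancel]
  let g : (Fin m → Fin (m + 1) → Fin N → ℤ) → (Fin (m + 1) → Fin (m + 1) → Fin N → ℤ) :=
    fun B => Fin.cons (fun _ _ => 0) B
  have hg : Function.Injective g := by
    intro B B' h
    funext i
    have := congrFun h i.succ
    simp only [g, Fin.cons_succ] at this
    exact this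
  refine card_box.trans ?_
  rw [← Finset.card_image_of_injective _ hg, ← Set.ncard_coe_finset]
  refine Set.ncard_le_ncard ?_ (sing_finite H _)
  intro A hA
  rw [Finset.mem_coe, Finset.mem_image] at hA
  obtain ⟨B, hB, rfl⟩ := hA
  rw [mem_box] at hB
  refine ⟨fun i => ?_, ?_⟩
  · refine Fin.cases ?_ (fun i => ?_) i
    · intro j k
      simp only [g, Fin.cons_zero, abs_zero]
      exact Int.natCast_nonneg H
    · intro j k
      simp only [g, Fin.cons_succ]
      exact hB i j k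
  · apply Matrix.det_eq_zero_of_row_eq_zero 0
    intro j
    simp only [Matrix.of_apply, g, Fin.cons_zero, Int.cast_zero, zero_mul, Finset.sum_const_zero]

variable [IsAlgClosed Cc] [Uncountable Cc] {Lt : Submodule (QC Cc) Cc} [HypC Lt]

/-- **Counting.** -/
theorem singNB_count {n N : ℕ} (hn : 1 ≤ n) (hMn : n * n + 2 * n ≤ N + 2) (l : Fin N → Cc)
    (hl : LinearIndependent (QC Cc) l) (hl' : ∀ j, l j ∈ Lt) :
    ∃ κ : ℕ, ∀ H : ℕ, 1 ≤ H →
      Set.ncard {A : Fin n → Fin n → Fin N → ℤ | (∀ i j k, |A i j k| ≤ H) ∧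
        (Matrix.of fun i j => ∑ k, (A i j k : Cc) * l k).det = 0 ∧
        ¬ RBlk (fun p : Fin n × Fin n => ∑ k, (A p.1 p.2 k : Cc) * l k)} ≤
      κ * H ^ ((n - 1) * (n - 1) * N + Cn n) ∧
      Set.ncard {A : Fin n → Fin n → Fin N → ℤ | (∀ i j k, |A i j k| ≤ H) ∧
        (Matrix.of fun i j => ∑ k, (A i j k : Cc) * l k).det = 0 ∧
        ¬ RBlk (fun p : Fin n × Fin n => ∑ k, (A p.1 p.2 k : Cc) * l k)} * H ^ ((n - 1) * N) ≤
      κ * H ^ (Cn n) * Set.ncard {A : Fin n → Fin n → Fin N → ℤ | (∀ i j k, |A i j k| ≤ H) ∧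
        (Matrix.of fun i j => ∑ k, (A i j k : Cc) * l k).det = 0} := by
  classical
  let S : Set ((Fin n × Fin n) × Fin N → QC Cc) :=
    {x | SingNB (fun p => cmb l (fun k => x (p, k)))}
  obtain ⟨κ, hκ⟩ := count_gen (d := (n - 1) * (n - 1) * N + Cn n) S (by
    intro φ
    obtain ⟨P, h1, h2⟩ := singNB_coord (n := n) l hl hl' hMn rfl φ
    refine ⟨P, h1, fun x hx => ?_⟩
    exact h2 (fun p k => x (p, k)) hx)
  refine ⟨κ, fun H hH => ?_⟩
  set T := {A : Fin n → Fin n → Fin N → ℤ | (∀ i j k, |A i j k| ≤ H) ∧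
        (Matrix.of fun i j => ∑ k, (A i j k : Cc) * l k).det = 0 ∧
        ¬ RBlk (fun p : Fin n × Fin n => ∑ k, (A p.1 p.2 k : Cc) * l k)} with hT
  have hfin : T.Finite := sing_finite H _
  have h1 : T.ncard ≤ κ * H ^ ((n - 1) * (n - 1) * N + Cn n) := by
    rw [Set.ncard_eq_toFinset_card T hfin]
    let g : (Fin n → Fin n → Fin N → ℤ) → ((Fin n × Fin n) × Fin N → ℤ) :=
      fun A p => A p.1.1 p.1.2 p.2
    have hg : Function.Injective g := by
      intro A A' h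
      funext i j k
      exact congrFun h ((i, j), k)
    rw [← Finset.card_image_of_injective _ hg]
    refine hκ H hH _ ?_
    intro a ha
    obtain ⟨A, hA, rfl⟩ := Finset.mem_image.1 ha
    rw [Set.Finite.mem_toFinset] at hA
    obtain ⟨hA1, hA2, hA3⟩ := hA
    refine ⟨fun p => hA1 _ _ _, ?_⟩
    have h2 : SingNB (fun p : Fin n × Fin n => ∑ k, (A p.1 p.2 k : Cc) * l k) :=
      ⟨hA2, fun h => hA3 (h.rat hl A)⟩
    change SingNB (fun p : Fin n × Fin n => cmb l (fun k => ((g A (p, k) : ℤ) : QC Cc)))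
    have h3 : (fun p : Fin n × Fin n => cmb l (fun k => ((g A (p, k) : ℤ) : QC Cc))) =
        fun p => ∑ k, (A p.1 p.2 k : Cc) * l k := by
      funext p
      simp only [Pool.Agent.Y787.GL.cmb, g]
      refine Finset.sum_congr rfl fun k _ => ?_
      rw [map_intCast]
    rw [h3]
    exact h2
  have h2 := sing_lower' (n := n) (N := N) hn l H
  have h3 : (n - 1) * (n - 1) * N + Cn n + (n - 1) * N = Cn n + (n - 1) * n * N := by
    obtain ⟨m, rfl⟩ : ∃ m, n = m + 1 := ⟨n - 1, by omega⟩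
    rw [Nat.add_sub_cancel]
    ring
  refine ⟨h1, ?_⟩
  calc T.ncard * H ^ ((n - 1) * N) ≤
      κ * H ^ ((n - 1) * (n - 1) * N + Cn n) * H ^ ((n - 1) * N) :=
        Nat.mul_le_mul_right _ h1
    _ = κ * H ^ (Cn n) * H ^ ((n - 1) * n * N) := by
        rw [mul_assoc, ← pow_add, h3, pow_add, ← mul_assoc]
    _ ≤ _ := Nat.mul_le_mul_left _ h2

end Pool.Agent.Y787.ZB
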