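import Pool.Agent.Y787.ZB.Rank
import Pool.Agent.Y787.HS.Sg

/-!
# The data of a singular matrix without zero block
-/

set_option autoImplicit false

namespace Pool.Agent.Y787.ZB
open Filter Module Pool.Agent.Y787.GL Pool.Agent.Y787.FE Pool.Agent.Y787.HS
open Pool.Agent.TH519.GL Pool.Agent.TH519.HS
open Pool.Agent.Y787 (QC mem_QC HypC hyperplane hyperplane' Lt_one baker')

variable {Cc : Type} [Field Cc] [CharZero Cc] [IsAlgClosed Cc] [Uncountable Cc] {Lt : Submodule (QC Cc) Cc}
  [HypC Lt]

/-- the data of a singular matrix with the entries `m` -/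
def DataV {n : ℕ} (v₀ a s : ℕ) (m : Fin n × Fin n → Cc)
    (g : Fin a × Fin n → (QC Cc)) (u : Fin a → Cc) (X : Fin s → Fin n → Cc) : Prop :=
  (∀ j, ∑ α, ∑ i, u α * (g (α, i) : Cc) * m (i, j) = 0) ∧
  (∀ t α, ∑ i, ∑ j, (g (α, i) : Cc) * m (i, j) * X t j = 0) ∧
  finrank (QC Cc) (RelG (fun (t : Fin s) (p : Fin n × Fin n) =>
    (∑ α, u α * (g (α, p.1) : Cc)) * X t p.2)) + v₀ ≤ n * n

/-- a block of zeros after a base change over the algebraic numbers, whose numbers of rows and
columns have at least the sum `n + 1` -/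
def Blk {n : ℕ} (m : Fin n × Fin n → Cc) : Prop :=
  ∃ W V : Submodule (QC Cc) (Fin n → QC Cc),
    n + 1 ≤ finrank (QC Cc) W + finrank (QC Cc) V ∧
    ∀ w ∈ W, ∀ v ∈ V, ∑ i, ∑ j, (w i : Cc) * m (i, j) * (v j : Cc) = 0

omit [IsAlgClosed Cc] [Uncountable Cc] in
theorem Blk.swap {n : ℕ} {m : Fin n × Fin n → Cc} (h : Blk (fun p => m (p.2, p.1))) : Blk m := by
  obtain ⟨W, V, h1, h2⟩ := h
  refine ⟨V, W, by omega, fun w hw v hv => ?_⟩
  rw [← h2 v hv w hw, Finset.sum_comm]
  refine Finset.sum_congr rfl fun i _ => Finset.sum_congr rfl fun j _ => ?_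
  ring

theorem data_left {n a : ℕ} (m : Fin n × Fin n → Cc) (c : Fin n → Cc) (hc0 : c ≠ 0)
    (hc : ∀ j, ∑ i, c i * m (i, j) = 0) (hblk : ¬ Blk m) (ξ : Fin a → Cc)
    (R : Fin n → Fin a → QC Cc) (w : Fin a → Fin n → QC Cc) (hξ : LinearIndependent (QC Cc) ξ)
    (han : a < n) (hcR : ∀ i, c i = ∑ α, algebraMap (QC Cc) Cc (R i α) * ξ α)
    (hξw : ∀ α, ξ α = ∑ i, algebraMap (QC Cc) Cc (w α i) * c i) :
    ∃ (g : Fin a × Fin n → (QC Cc)) (u : Fin a → Cc)
      (X : Fin (n - a + 1) → Fin n → Cc), DataV (2 * n - 1) a (n - a + 1) m g u X := by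
  classical
  have ha0 : a ≠ 0 := by
    rintro rfl
    apply hc0
    funext i
    rw [hcR, Finset.univ_eq_empty, Finset.sum_empty]
    rfl
  -- the rows are independent
  have hwR : ∀ α β, ∑ i, w α i * R i β = if α = β then 1 else 0 := by
    intro α β
    have h1 : ∑ β, (∑ i, w α i * R i β - if α = β then 1 else 0) • ξ β = 0 := by
      simp only [sub_smul, Finset.sum_sub_distrib, ite_smul, one_smul, zero_smul]
      rw [Finset.sum_ite_eq, if_pos (Finset.mem_univ α), sub_eq_zero]
      rw [hξw α]
      simp only [hcR, Algebra.smul_def, map_sum, map_mul, Finset.mul_sum, Finset.sum_mul]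
      rw [Finset.sum_comm]
      refine Finset.sum_congr rfl fun i _ => Finset.sum_congr rfl fun β _ => ?_
      ring
    rw [Fintype.linearIndependent_iff] at hξ
    exact sub_eq_zero.1 (hξ _ h1 β)
  have hrow : LinearIndependent (QC Cc) (fun α i => R i α) := by
    rw [Fintype.linearIndependent_iff]
    intro μ hμ α
    have h1 : ∑ i, w α i * ∑ β, μ β * R i β = 0 := by
      refine Finset.sum_eq_zero fun i _ => ?_
      have h2 := congrFun hμ i
      rw [Finset.sum_apply] at h2
      simp only [Pi.smul_apply, smul_eq_mul, Pi.zero_apply] at h2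
      rw [h2, mul_zero]
    have h2 : ∑ i, w α i * ∑ β, μ β * R i β = ∑ β, μ β * ∑ i, w α i * R i β := by
      simp only [Finset.mul_sum]
      rw [Finset.sum_comm]
      refine Finset.sum_congr rfl fun i _ => Finset.sum_congr rfl fun β _ => ?_
      ring
    rw [h2] at h1
    simp only [hwR] at h1
    simpa using h1
  have hcsum : ∀ i, ∑ α, ξ α * ((R i α : (QC Cc)) : Cc) = c i := by
    intro i
    rw [hcR i]
    refine Finset.sum_congr rfl fun α _ => ?_
    rw [mul_comm]
    rfl
  have hA : ∀ j, ∑ α, ξ α * ∑ i, ((R i α : (QC Cc)) : Cc) * m (i, j) = 0 := by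
    intro j
    rw [← hc j]
    simp only [Finset.mul_sum]
    rw [Finset.sum_comm]
    refine Finset.sum_congr rfl fun i _ => ?_
    rw [← hcsum i, Finset.sum_mul]
    refine Finset.sum_congr rfl fun α _ => ?_
    ring
  have hξ0 : ξ ≠ 0 := by
    intro h
    exact hξ.ne_zero ⟨0, by omega⟩ (congrFun h _)
  have ha1 : a ≠ 1 := by
    rintro rfl
    have hξ0 : ξ 0 ≠ 0 := hξ.ne_zero 0
    apply hblk
    refine ⟨Submodule.span (QC Cc) {fun i => R i 0}, ⊤, ?_, ?_⟩
    · rw [finrank_span_singleton (hrow.ne_zero 0), finrank_top,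
        Module.finrank_fintype_fun_eq_card, Fintype.card_fin]
      omega
    · intro w' hw' v _
      obtain ⟨t, rfl⟩ := Submodule.mem_span_singleton.1 hw'
      rw [Finset.sum_comm]
      refine Finset.sum_eq_zero fun j _ => ?_
      have h1 : ∑ i, ((((t • fun i => R i 0) : Fin n → QC Cc) i : QC Cc) : Cc) * m (i, j) *
          ((v j : QC Cc) : Cc) = (t : Cc) * (v j : Cc) * ∑ i, ((R i 0 : QC Cc) : Cc) * m (i, j) := by
        rw [Finset.mul_sum]
        refine Finset.sum_congr rfl fun i _ => ?_
        rw [Pi.smul_apply, smul_eq_mul]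
        push_cast
        ring
      rw [h1]
      have h2 := hA j
      rw [Fin.sum_univ_one] at h2
      rw [(mul_eq_zero.1 h2).resolve_left hξ0, mul_zero]
  obtain ⟨X, hX1, hX2⟩ := ker_X (fun α j => ∑ i, ((R i α : (QC Cc)) : Cc) * m (i, j)) ξ hξ0 han.le hA
  refine ⟨fun p => R p.2 p.1, ξ, X, ?_, ?_, ?_⟩
  · intro j
    rw [← hA j]
    refine Finset.sum_congr rfl fun α _ => ?_
    rw [Finset.mul_sum]
    refine Finset.sum_congr rfl fun i _ => ?_
    rw [mul_assoc]
  · intro t α
    rw [← hX2 t α, Finset.sum_comm]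
    refine Finset.sum_congr rfl fun j _ => ?_
    rw [Finset.sum_mul]
  · have h1 := rank_A' (K := (QC Cc)) int_QB (by omega) c ξ w hξ hξw X hX1 (by
      intro Y hY
      by_contra hcon
      push Not at hcon
      apply hblk
      refine ⟨Submodule.span (QC Cc) (Set.range fun α i => R i α),
        Submodule.span (QC Cc) (Set.range Y), ?_, ?_⟩
      · rw [finrank_span_eq_card hrow, finrank_span_eq_card hY, Fintype.card_fin, Fintype.card_fin]
        omega
      · have hker : ∀ k α, ∑ i, ∑ j, ((R i α : QC Cc) : Cc) * m (i, j) * ((Y k j : QC Cc) : Cc) = 0 := by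
          intro k α
          obtain ⟨γ, hγ⟩ := (Submodule.mem_span_range_iff_exists_fun Cc).1 (hcon k)
          have h3 : ∀ j, ((Y k j : QC Cc) : Cc) = ∑ t, γ t * X t j := by
            intro j
            have h4 := congrFun hγ j
            rw [Finset.sum_apply] at h4
            rw [show ((Y k j : QC Cc) : Cc) = algebraMap (QC Cc) Cc (Y k j) from rfl, ← h4]
            rfl
          have h5 : ∑ i, ∑ j, ((R i α : QC Cc) : Cc) * m (i, j) * ((Y k j : QC Cc) : Cc) =
              ∑ t, γ t * ∑ j, (∑ i, ((R i α : (QC Cc)) : Cc) * m (i, j)) * X t j := by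
            simp only [h3, Finset.mul_sum, Finset.sum_mul]
            rw [Finset.sum_comm]
            have h6 : ∀ j : Fin n, ∑ i, ∑ t, ((R i α : QC Cc) : Cc) * m (i, j) * (γ t * X t j) =
                ∑ t, ∑ i, ((R i α : QC Cc) : Cc) * m (i, j) * (γ t * X t j) :=
              fun j => Finset.sum_comm
            simp only [h6]
            rw [Finset.sum_comm]
            refine Finset.sum_congr rfl fun t _ => Finset.sum_congr rfl fun j _ =>
              Finset.sum_congr rfl fun i _ => ?_
            ring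
          rw [h5]
          refine Finset.sum_eq_zero fun t _ => ?_
          rw [hX2 t α, mul_zero]
        intro w' hw' v hv
        induction hw' using Submodule.span_induction with
        | mem x hx =>
          obtain ⟨α, rfl⟩ := hx
          induction hv using Submodule.span_induction with
          | mem y hy =>
            obtain ⟨k, rfl⟩ := hy
            exact hker k α
          | zero => simp
          | add x y _ _ hx hy =>
            simp only [Pi.add_apply, IntermediateField.coe_add, mul_add, Finset.sum_add_distrib]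
            rw [hx, hy, add_zero]
          | smul t x _ hx =>
            have h3 : ∑ i, ∑ j, ((R i α : QC Cc) : Cc) * m (i, j) * (((t • x) j : QC Cc) : Cc) =
                (t : Cc) * ∑ i, ∑ j, ((R i α : QC Cc) : Cc) * m (i, j) * ((x j : QC Cc) : Cc) := by
              simp only [Finset.mul_sum]
              refine Finset.sum_congr rfl fun i _ => Finset.sum_congr rfl fun j _ => ?_
              rw [Pi.smul_apply, smul_eq_mul]
              push_cast
              ring
            rw [h3, hx, mul_zero]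
        | zero => simp
        | add x y _ _ hx hy =>
          simp only [Pi.add_apply, IntermediateField.coe_add, add_mul, Finset.sum_add_distrib]
          rw [hx, hy, add_zero]
        | smul t x _ hx =>
          have h3 : ∑ i, ∑ j, (((t • x) i : QC Cc) : Cc) * m (i, j) * ((v j : QC Cc) : Cc) =
              (t : Cc) * ∑ i, ∑ j, ((x i : QC Cc) : Cc) * m (i, j) * ((v j : QC Cc) : Cc) := by
            simp only [Finset.mul_sum]
            refine Finset.sum_congr rfl fun i _ => Finset.sum_congr rfl fun j _ => ?_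
            rw [Pi.smul_apply, smul_eq_mul]
            push_cast
            ring
          rw [h3, hx, mul_zero])
    have h2 : (fun (t : Fin (n - a + 1)) (p : Fin n × Fin n) =>
        (∑ α, ξ α * ((R p.1 α : (QC Cc)) : Cc)) * X t p.2) =
        fun (t : Fin (n - a + 1)) (p : Fin n × Fin n) => c p.1 * X t p.2 := by
      funext t p
      rw [hcsum]
    change finrank (QC Cc) (RelG (fun (t : Fin (n - a + 1)) (p : Fin n × Fin n) =>
        (∑ α, ξ α * ((R p.1 α : (QC Cc)) : Cc)) * X t p.2)) + (2 * n - 1) ≤ n * n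
    rw [h2, relG_eq]
    have h3 : 2 * n - 1 ≤ a * (n - a + 1) + 1 := by
      obtain ⟨k, rfl⟩ : ∃ k, n = a + k := ⟨n - a, by omega⟩
      have hk : 1 ≤ k := by omega
      have ha2 : 2 ≤ a := by omega
      rw [Nat.add_sub_cancel_left]
      have h4 : 2 * (a + k) ≤ a * (k + 1) + 2 := by nlinarith
      omega
    omega

/-- **The data of a singular matrix without zero block.** -/
theorem sing_data' {n : ℕ} (m : Fin n × Fin n → Cc)
    (hleft : ∃ c : Fin n → Cc, c ≠ 0 ∧ ∀ j, ∑ i, c i * m (i, j) = 0)
    (hright : ∃ d : Fin n → Cc, d ≠ 0 ∧ ∀ i, ∑ j, m (i, j) * d j = 0)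
    (hblk : ¬ Blk m) :
    (∃ a : ℕ, a ≤ n ∧ ∃ (g : Fin a × Fin n → (QC Cc)) (u : Fin a → Cc)
      (X : Fin (n - a + 1) → Fin n → Cc), DataV (2 * n - 1) a (n - a + 1) m g u X) ∨
    (∃ a : ℕ, a ≤ n ∧ ∃ (g : Fin a × Fin n → (QC Cc)) (u : Fin a → Cc)
      (X : Fin (n - a + 1) → Fin n → Cc),
      DataV (2 * n - 1) a (n - a + 1) (fun p => m (p.2, p.1)) g u X) := by
  classical
  obtain ⟨c, hc0, hc⟩ := hleft
  obtain ⟨d, hd0, hd⟩ := hright
  obtain ⟨a, ξ, R, w, hξ, han, hcR, hξw, hfull⟩ := basis_c (QC Cc) c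
  rcases Nat.lt_or_ge a n with hlt | hge
  · left
    exact ⟨a, han, data_left m c hc0 hc hblk ξ R w hξ hlt hcR hξw⟩
  obtain ⟨b, η, S, z, hη, hbn, hdS, hηz, hfull'⟩ := basis_c (QC Cc) d
  rcases Nat.lt_or_ge b n with hlt' | hge'
  · right
    refine ⟨b, hbn, data_left (fun p => m (p.2, p.1)) d hd0 ?_ (fun h => hblk h.swap) η S z hη hlt'
      hdS hηz⟩
    intro j
    rw [← hd j]
    refine Finset.sum_congr rfl fun i _ => ?_
    ring
  left
  have hn : a = n := le_antisymm han hge
  have hn' : b = n := le_antisymm hbn hge'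
  subst hn
  have hcli := hfull rfl
  have hdli := hfull' hn'
  have ha0 : 0 < a := by
    rcases Nat.eq_zero_or_pos a with rfl | h
    · exfalso
      apply hc0
      funext i
      exact i.elim0
    · exact h
  have hs : a - a + 1 = 1 := by omega
  refine ⟨a, le_rfl, fun p => if p.1 = p.2 then 1 else 0, c, ?_⟩
  rw [hs]
  have hδ : ∀ (i : Fin a) (f : Fin a → Cc),
      ∑ α, f α * (((if α = i then 1 else 0 : (QC Cc))) : Cc) = f i := by
    intro i f
    rw [Finset.sum_eq_single i]
    · rw [if_pos rfl]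
      push_cast
      rw [mul_one]
    · intro j _ hj
      rw [if_neg hj]
      push_cast
      rw [mul_zero]
    · intro h; exact absurd (Finset.mem_univ i) h
  refine ⟨fun _ => d, ?_, ?_, ?_⟩
  · intro j
    rw [← hc j, Finset.sum_comm]
    refine Finset.sum_congr rfl fun i _ => ?_
    rw [← Finset.sum_mul, hδ]
  · intro _ α
    rw [← hd α]
    rw [Finset.sum_eq_single α]
    · refine Finset.sum_congr rfl fun j _ => ?_
      simp only [if_true]
      push_cast
      rw [one_mul]
    · intro i _ hi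
      refine Finset.sum_eq_zero fun j _ => ?_
      simp only [if_neg (Ne.symm hi)]
      push_cast
      rw [zero_mul, zero_mul]
    · intro h; exact absurd (Finset.mem_univ α) h
  · have h6 : IsAlgClosed (QC Cc) := (algebraicClosure.isAlgClosure ℚ Cc).isAlgClosed
    have h1 := rank_B' (K := QC Cc) ha0 c d hcli hdli
    have h2 : (fun (t : Fin 1) (p : Fin a × Fin a) =>
        (∑ α, c α * (((if α = p.1 then 1 else 0 : (QC Cc))) : Cc)) * d p.2) =
        fun (t : Fin 1) (p : Fin a × Fin a) => c p.1 * d p.2 := by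
      funext t p
      rw [hδ]
    change finrank (QC Cc) (RelG (fun (t : Fin 1) (p : Fin a × Fin a) =>
        (∑ α, c α * (((if α = p.1 then 1 else 0 : (QC Cc))) : Cc)) * d p.2)) + (2 * a - 1) ≤ a * a
    rw [h2, relG_eq c (fun (_ : Fin 1) => d)]
    exact h1

end Pool.Agent.Y787.ZB
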