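import Pool.Agent.Y787.ZB.Data
import Pool.Agent.Y787.HS.SgF

/-!
# Families of singular matrices without zero block
-/

set_option autoImplicit false

namespace Pool.Agent.Y787.ZB
open Filter Module Pool.Agent.Y787.GL Pool.Agent.Y787.FE Pool.Agent.Y787.HS
open Pool.Agent.TH519.GL Pool.Agent.TH519.HS
open Pool.Agent.Y787 (QC mem_QC HypC hyperplane hyperplane' Lt_one baker')

variable {Cc : Type} [Field Cc] [CharZero Cc] [IsAlgClosed Cc] [Uncountable Cc] {Lt : Submodule (QC Cc) Cc}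
  [HypC Lt]

/-- **Families of singular matrices.** -/
theorem bilV {n M a s q v₀ : ℕ} (l' : Fin M → Cc) (hl : LinearIndependent (QC Cc) l')
    (hl' : ∀ j, l' j ∈ Lt) (hMn : n * n + v₀ ≤ M + 1)
    (hq : q = v₀ * (v₀ - 1) + (n * n - v₀) * M + a * n + 1)
    (φ : Fin q → (((Fin n × Fin n) × Fin M → (QC Cc)) →ₗ[(QC Cc)] (QC Cc))) :
    ∃ P : MvPolynomial (Fin q) (QC Cc), P ≠ 0 ∧ ∀ b : Fin n × Fin n → Fin M → (QC Cc),
      (∃ (g : Fin a × Fin n → (QC Cc)) (u : Fin a → Cc) (X : Fin s → Fin n → Cc),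
        DataV v₀ a s (fun p => cmb l' (b p)) g u X) →
      MvPolynomial.eval (fun k => φ k (fun p => b p.1 p.2)) P = 0 := by
  classical
  by_contra hcon
  push Not at hcon
  set ι : Type := {x : (Fin n × Fin n → Fin M → (QC Cc)) × (Fin a × Fin n → (QC Cc)) × (Fin a → Cc) ×
    (Fin s → Fin n → Cc) // DataV v₀ a s (fun p => cmb l' (x.1 p)) x.2.1 x.2.2.1 x.2.2.2} with hι
  obtain ⟨𝒰, hgen⟩ := exists_ultra' (ι := ι)
    (fun x k => φ k (fun p => x.1.1 p.1 p.2)) (by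
    intro P hP
    obtain ⟨b, ⟨g, u, X, h1⟩, h2⟩ := hcon P hP
    exact ⟨⟨(b, g, u, X), h1⟩, h2⟩)
  obtain ⟨D, g, hg, hD2, hDc, hφ⟩ := exists_system 𝒰
    (fun (x : ι) (p : (Fin n × Fin n) × Fin M) => x.1.1 p.1 p.2) φ hgen
  have hX : ∀ k t j, ∃ dX : ι → Cc, HD (D k) (fun x : ι => x.1.2.2.2 t j) dX := by
    intro k t j
    obtain ⟨a, ha⟩ := gh_surj 𝒰 Cc (D k (gh 𝒰 Cc (fun x : ι => x.1.2.2.2 t j)))
    exact ⟨a, ha.symm⟩
  choose dX hdX using hX
  have hM : ∀ k p, HD (D k) (fun x : ι => cmb l' (x.1.1 p))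
      (fun x => cmb l' (fun j => g k (fun x => x.1.1 p j) x)) :=
    fun k p => hDc l' k (fun x => x.1.1 p)
  have hgg : ∀ k p, HD (D k) (fun x : ι => ((x.1.2.1 p : (QC Cc)) : Cc))
      (fun x => ((g k (fun x => x.1.2.1 p) x : (QC Cc)) : Cc)) :=
    fun k p => hg k (fun x => x.1.2.1 p)
  have hrel : ∀ᶠ x in (𝒰 : Filter ι), ∀ k t α, ∑ i, ∑ j,
      ((x.1.2.1 (α, i) : Cc) * cmb l' (x.1.1 (i, j)) * dX k t j x +
        x.1.2.2.2 t j * ((x.1.2.1 (α, i) : Cc) *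
          cmb l' (fun m => g k (fun x => x.1.1 (i, j) m) x) +
        cmb l' (x.1.1 (i, j)) * ((g k (fun x => x.1.2.1 (α, i)) x : (QC Cc)) : Cc))) = 0 := by
    rw [Filter.eventually_all]
    intro k
    rw [Filter.eventually_all]
    intro t
    rw [Filter.eventually_all]
    intro α
    refine HD.congr (HDsum (hD2 k) Finset.univ _ _ fun i => HDsum (hD2 k) Finset.univ _ _ fun j =>
      ((hgg k (α, i)).mul (hM k (i, j))).mul (hdX k t j))
      (HDc (hD2 k) 0) (Filter.Eventually.of_forall fun x => x.2.2.1 t α)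
  have hind : ∀ᶠ x in (𝒰 : Filter ι), ∀ c : Fin q → (QC Cc),
      (∀ p j, ∑ k, c k * g k (fun x => x.1.1 p j) x = 0) → c = 0 := by
    refine hφ.mono fun x hx c hc => ?_
    refine eq_zero_of_dual φ (fun k p => g k (fun x => x.1.1 p.1 p.2) x) hx c ?_
    rintro ⟨p, j⟩
    exact hc p j
  obtain ⟨x, hx1, hx2⟩ := (hrel.and hind).exists
  have h3 := tangent_boundH (n := q) (v₀ := v₀) l' hl hl'
    (fun (t : Fin s) (p : Fin n × Fin n) =>
      (∑ α, x.1.2.2.1 α * (x.1.2.1 (α, p.1) : Cc)) * x.1.2.2.2 t p.2)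
    (fun (t : Fin s) (p : Fin a × Fin n) =>
      x.1.2.2.1 p.1 * ∑ j, cmb l' (x.1.1 (p.2, j)) * x.1.2.2.2 t j)
    (by
      have h4 := x.2.2.2
      rw [Fintype.card_prod, Fintype.card_fin]
      exact h4)
    (by
      rw [Fintype.card_prod, Fintype.card_fin]
      exact hMn)
    (fun k p j => g k (fun x => x.1.1 p j) x) (fun k p => g k (fun x => x.1.2.1 p) x)
    (by
      intro k t
      exact bil_id x.1.2.2.1 (fun p => (x.1.2.1 p : Cc))
        (fun p => ((g k (fun x => x.1.2.1 p) x : (QC Cc)) : Cc)) (fun p => cmb l' (x.1.1 p))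
        (fun p => cmb l' (fun j => g k (fun x => x.1.1 p j) x)) x.1.2.2.2
        (fun t j => dX k t j x) x.2.1 (fun t α => hx1 k t α) t) hx2
  rw [Fintype.card_prod, Fintype.card_fin, Fintype.card_prod, Fintype.card_fin,
    Fintype.card_fin] at h3
  omega

/-- singular, and no zero block -/
def SingNB {n : ℕ} (m : Fin n × Fin n → Cc) : Prop :=
  (Matrix.of fun i j => m (i, j)).det = 0 ∧ ¬ Blk m

theorem SingNB.data {n : ℕ} {m : Fin n × Fin n → Cc} (h : SingNB m) :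
    (∃ a : ℕ, a ≤ n ∧ ∃ (g : Fin a × Fin n → (QC Cc)) (u : Fin a → Cc)
      (X : Fin (n - a + 1) → Fin n → Cc), DataV (2 * n - 1) a (n - a + 1) m g u X) ∨
    (∃ a : ℕ, a ≤ n ∧ ∃ (g : Fin a × Fin n → (QC Cc)) (u : Fin a → Cc)
      (X : Fin (n - a + 1) → Fin n → Cc),
      DataV (2 * n - 1) a (n - a + 1) (fun p => m (p.2, p.1)) g u X) := by
  obtain ⟨h1, h2⟩ := h
  refine sing_data' m ?_ ?_ h2
  · obtain ⟨v, hv1, hv2⟩ := Matrix.exists_vecMul_eq_zero_iff.2 h1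
    exact ⟨v, hv1, fun j => congrFun hv2 j⟩
  · obtain ⟨v, hv1, hv2⟩ := Matrix.exists_mulVec_eq_zero_iff.2 h1
    exact ⟨v, hv1, fun j => congrFun hv2 j⟩

/-- the constant -/
def Cn (n : ℕ) : ℕ := (2 * n - 1) * (2 * n - 2) + n * n

theorem singNB_coord {n M q : ℕ} (l' : Fin M → Cc) (hl : LinearIndependent (QC Cc) l')
    (hl' : ∀ j, l' j ∈ Lt) (hMn : n * n + 2 * n ≤ M + 2)
    (hq : q = (n - 1) * (n - 1) * M + Cn n + 1)
    (φ : Fin q → (((Fin n × Fin n) × Fin M → (QC Cc)) →ₗ[(QC Cc)] (QC Cc))) :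
    ∃ P : MvPolynomial (Fin q) (QC Cc), P ≠ 0 ∧ ∀ b : Fin n × Fin n → Fin M → (QC Cc),
      SingNB (fun p => cmb l' (b p)) →
      MvPolynomial.eval (fun k => φ k (fun p => b p.1 p.2)) P = 0 := by
  classical
  rcases Nat.eq_zero_or_pos n with rfl | hn
  · refine ⟨1, one_ne_zero, fun b hb => ?_⟩
    exfalso
    have := hb.1
    rw [Matrix.det_fin_zero] at this
    exact one_ne_zero this
  have e0 : n * n - (2 * n - 1) = (n - 1) * (n - 1) := by
    obtain ⟨m, rfl⟩ : ∃ m, n = m + 1 := ⟨n - 1, by omega⟩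
    rw [Nat.add_sub_cancel]
    have : (m + 1) * (m + 1) = m * m + (2 * (m + 1) - 1) := by
      have : 2 * (m + 1) - 1 = 2 * m + 1 := by omega
      rw [this]; ring
    omega
  have hle : ∀ a : Fin (n + 1), (2 * n - 1) * (2 * n - 1 - 1) + (n * n - (2 * n - 1)) * M +
      (a : ℕ) * n + 1 ≤ q := by
    intro a
    have h1 : (a : ℕ) * n ≤ n * n := Nat.mul_le_mul_right n (Nat.lt_succ_iff.1 a.2)
    have h2 : 2 * n - 1 - 1 = 2 * n - 2 := by omega
    rw [e0, h2, hq, Cn]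
    omega
  choose P hP1 hP2 using fun a : Fin (n + 1) =>
    bilV (a := (a : ℕ)) (s := n - (a : ℕ) + 1) (v₀ := 2 * n - 1) l' hl hl' (by omega) rfl
      (fun k => φ (Fin.castLE (hle a) k))
  let swp : ((Fin n × Fin n) × Fin M → (QC Cc)) →ₗ[(QC Cc)] ((Fin n × Fin n) × Fin M → (QC Cc)) :=
    LinearMap.funLeft (QC Cc) (QC Cc) (fun p => ((p.1.2, p.1.1), p.2))
  choose P' hP1' hP2' using fun a : Fin (n + 1) =>
    bilV (a := (a : ℕ)) (s := n - (a : ℕ) + 1) (v₀ := 2 * n - 1) l' hl hl' (by omega) rfl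
      (fun k => φ (Fin.castLE (hle a) k) ∘ₗ swp)
  refine ⟨(∏ a, MvPolynomial.rename (Fin.castLE (hle a)) (P a)) *
    ∏ a, MvPolynomial.rename (Fin.castLE (hle a)) (P' a), ?_, ?_⟩
  · refine mul_ne_zero ?_ ?_
    · rw [Finset.prod_ne_zero_iff]
      intro a _ h
      apply hP1 a
      apply MvPolynomial.rename_injective _ (Fin.castLE_injective (hle a))
      rw [h, map_zero]
    · rw [Finset.prod_ne_zero_iff]
      intro a _ h
      apply hP1' a
      apply MvPolynomial.rename_injective _ (Fin.castLE_injective (hle a))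
      rw [h, map_zero]
  · intro b hb
    rw [map_mul]
    rcases hb.data with ⟨a, ha, g, u, X, hD⟩ | ⟨a, ha, g, u, X, hD⟩
    · rw [map_prod]
      refine mul_eq_zero_of_left ?_ _
      refine Finset.prod_eq_zero (Finset.mem_univ (⟨a, by omega⟩ : Fin (n + 1))) ?_
      rw [MvPolynomial.eval_rename]
      exact hP2 ⟨a, by omega⟩ b ⟨g, u, X, hD⟩
    · rw [map_prod (MvPolynomial.eval _) (fun a => MvPolynomial.rename (Fin.castLE (hle a)) (P' a))]
      refine mul_eq_zero_of_right _ ?_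
      refine Finset.prod_eq_zero (Finset.mem_univ (⟨a, by omega⟩ : Fin (n + 1))) ?_
      rw [MvPolynomial.eval_rename]
      exact hP2' ⟨a, by omega⟩ (fun p => b (p.2, p.1)) ⟨g, u, X, hD⟩

/-- **The dimension theorem.** -/
theorem singNB_dim (W : Submodule (QC Cc) Cc) [FiniteDimensional (QC Cc) W] (hW : W ≤ Lt) {n : ℕ}
    (hMn : n * n + 2 * n ≤ finrank (QC Cc) W + 2)
    (φ : Fin ((n - 1) * (n - 1) * finrank (QC Cc) W + Cn n + 1) →
      (Matrix (Fin n) (Fin n) W →ₗ[(QC Cc)] (QC Cc))) :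
    ∃ P : MvPolynomial (Fin ((n - 1) * (n - 1) * finrank (QC Cc) W + Cn n + 1)) (QC Cc), P ≠ 0 ∧
      ∀ A : Matrix (Fin n) (Fin n) W, SingNB (fun p => (A p.1 p.2 : Cc)) →
        MvPolynomial.eval (fun k => φ k A) P = 0 := by
  obtain ⟨P, h1, h2⟩ := singNB_coord (n := n) (bs W) (bs_li W)
    (fun j => hW (Module.finBasis (QC Cc) W j).2) hMn rfl (fun k => φ k ∘ₗ mkM n)
  refine ⟨P, h1, fun A hA => ?_⟩
  have h3 : (fun p : Fin n × Fin n => cmb (bs W)
      ((fun p k => (Module.finBasis (QC Cc) W).repr (A p.1 p.2) k) p)) =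
      fun p => (A p.1 p.2 : Cc) := by
    funext p
    exact cmb_bs' W (A p.1 p.2)
  have h4 := h2 (fun p k => (Module.finBasis (QC Cc) W).repr (A p.1 p.2) k) (by
    rw [h3]
    exact hA)
  have h5 : mkM (K := (QC Cc)) (W := W) n
      (fun q => (Module.finBasis (QC Cc) W).repr (A q.1.1 q.1.2) q.2) = A := by
    ext i j
    exact congrArg _ ((Module.finBasis (QC Cc) W).sum_repr (A i j))
  simp only [LinearMap.comp_apply, h5] at h4
  exact h4

end Pool.Agent.Y787.ZB
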