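import Pool.Agent.Y787.ZB.Cnt
import Pool.Agent.Y787.CStrat
import Pool.Agent.Y787.PStrat

/-!
# Complex and `p`-adic logarithms
-/

set_option autoImplicit false

namespace Pool.Agent.Y787.ZB
open Module
open Pool.Agent.Y787 (QC mem_QC HypC)
open Pool.Agent.Y787.HS
open Pool.Agent.W245.PB (IsIwasawaLog)
open Pool.Agent.W254.PA (LtE logs)

/-- blocks of zeros -/
def ZBlk (k : Type) {E : Type} [Field k] [Field E] [Algebra k E] {n : ℕ}
    (M : Matrix (Fin n) (Fin n) E) : Prop :=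
  ∃ (a b : ℕ) (w : Fin a → Fin n → k) (v : Fin b → Fin n → k), a + b = n + 1 ∧
    LinearIndependent k w ∧ LinearIndependent k v ∧
    ∀ s t, ∑ i, ∑ j, algebraMap k E (w s i) * M i j * algebraMap k E (v t j) = 0

theorem ZBlk.of_blk {Cc : Type} [Field Cc] [CharZero Cc] {n : ℕ} {M : Matrix (Fin n) (Fin n) Cc}
    (h : Blk (fun p => M p.1 p.2)) : ZBlk (QC Cc) M := by
  obtain ⟨W, V, h1, h2⟩ := h
  have hW : finrank (QC Cc) W ≤ n := by
    have := Submodule.finrank_le W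
    rwa [finrank_fintype_fun_eq_card, Fintype.card_fin] at this
  have hV : finrank (QC Cc) V ≤ n := by
    have := Submodule.finrank_le V
    rwa [finrank_fintype_fun_eq_card, Fintype.card_fin] at this
  obtain ⟨b, hb, hab⟩ : ∃ b ≤ finrank (QC Cc) V, finrank (QC Cc) W + b = n + 1 :=
    ⟨n + 1 - finrank (QC Cc) W, by omega, by omega⟩
  refine ⟨finrank (QC Cc) W, b, fun s => (Module.finBasis (QC Cc) W s : Fin n → QC Cc),
    fun t => (Module.finBasis (QC Cc) V (Fin.castLE hb t) : Fin n → QC Cc), hab, ?_, ?_, ?_⟩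
  · exact (Module.finBasis (QC Cc) W).linearIndependent.map' W.subtype
      (LinearMap.ker_eq_bot.2 W.subtype_injective)
  · exact ((Module.finBasis (QC Cc) V).linearIndependent.map' V.subtype
      (LinearMap.ker_eq_bot.2 V.subtype_injective)).comp _ (Fin.castLE_injective hb)
  · intro s t
    exact h2 _ (Module.finBasis (QC Cc) W s).2 _ (Module.finBasis (QC Cc) V (Fin.castLE hb t)).2

theorem ZBlk.of_rblk {Cc : Type} [Field Cc] [CharZero Cc] {n : ℕ} {M : Matrix (Fin n) (Fin n) Cc}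
    (h : RBlk (fun p => M p.1 p.2)) : ZBlk ℚ M := by
  obtain ⟨a, b, w, v, h1, h2, h3, h4⟩ := h
  refine ⟨a, b, w, v, h1, h2, h3, fun s t => ?_⟩
  rw [← h4 s t]
  refine Finset.sum_congr rfl fun i _ => Finset.sum_congr rfl fun j _ => ?_
  rw [eq_ratCast, eq_ratCast]

section gen

variable {Cc : Type} [Field Cc] [CharZero Cc] [IsAlgClosed Cc] [Uncountable Cc]
  {Lt : Submodule (QC Cc) Cc} [HypC Lt]

theorem zb_dim (W : Submodule (QC Cc) Cc) [FiniteDimensional (QC Cc) W] (hW : W ≤ Lt) {n : ℕ}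
    (hMn : n * n + 2 * n ≤ finrank (QC Cc) W + 2)
    (φ : Fin ((n - 1) * (n - 1) * finrank (QC Cc) W + Cn n + 1) →
      (Matrix (Fin n) (Fin n) W →ₗ[(QC Cc)] (QC Cc))) :
    ∃ P : MvPolynomial (Fin ((n - 1) * (n - 1) * finrank (QC Cc) W + Cn n + 1)) (QC Cc), P ≠ 0 ∧
      ∀ A : Matrix (Fin n) (Fin n) W, (A.map (fun x => (x : Cc))).det = 0 →
        ¬ ZBlk (QC Cc) (A.map (fun x => (x : Cc))) →
        MvPolynomial.eval (fun k => φ k A) P = 0 := by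
  obtain ⟨P, h1, h2⟩ := singNB_dim (Lt := Lt) W hW hMn φ
  exact ⟨P, h1, fun A h3 h4 => h2 A ⟨h3, fun h => h4 (ZBlk.of_blk h)⟩⟩

theorem zb_count {n N : ℕ} (hn : 1 ≤ n) (hMn : n * n + 2 * n ≤ N + 2) (l : Fin N → Cc)
    (hl : LinearIndependent (QC Cc) l) (hl' : ∀ j, l j ∈ Lt) :
    ∃ κ : ℕ, ∀ H : ℕ, 1 ≤ H →
      Set.ncard {A : Fin n → Fin n → Fin N → ℤ | (∀ i j k, |A i j k| ≤ H) ∧
        (Matrix.of fun i j => ∑ k, (A i j k : Cc) * l k).det = 0 ∧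
        ¬ ZBlk ℚ (Matrix.of fun i j => ∑ k, (A i j k : Cc) * l k)} ≤
      κ * H ^ ((n - 1) * (n - 1) * N + Cn n) ∧
      Set.ncard {A : Fin n → Fin n → Fin N → ℤ | (∀ i j k, |A i j k| ≤ H) ∧
        (Matrix.of fun i j => ∑ k, (A i j k : Cc) * l k).det = 0 ∧
        ¬ ZBlk ℚ (Matrix.of fun i j => ∑ k, (A i j k : Cc) * l k)} * H ^ ((n - 1) * N) ≤
      κ * H ^ (Cn n) * Set.ncard {A : Fin n → Fin n → Fin N → ℤ | (∀ i j k, |A i j k| ≤ H) ∧
        (Matrix.of fun i j => ∑ k, (A i j k : Cc) * l k).det = 0} := by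
  obtain ⟨κ, hκ⟩ := singNB_count (Lt := Lt) hn hMn l hl hl'
  refine ⟨κ, fun H hH => ?_⟩
  obtain ⟨h1, h2⟩ := hκ H hH
  have hsub : Set.ncard {A : Fin n → Fin n → Fin N → ℤ | (∀ i j k, |A i j k| ≤ H) ∧
        (Matrix.of fun i j => ∑ k, (A i j k : Cc) * l k).det = 0 ∧
        ¬ ZBlk ℚ (Matrix.of fun i j => ∑ k, (A i j k : Cc) * l k)} ≤
      Set.ncard {A : Fin n → Fin n → Fin N → ℤ | (∀ i j k, |A i j k| ≤ H) ∧
        (Matrix.of fun i j => ∑ k, (A i j k : Cc) * l k).det = 0 ∧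
        ¬ RBlk (fun p : Fin n × Fin n => ∑ k, (A p.1 p.2 k : Cc) * l k)} := by
    refine Set.ncard_le_ncard ?_ (Pool.Agent.TH519.HS.sing_finite H _)
    rintro A ⟨h3, h4, h5⟩
    exact ⟨h3, h4, fun h => h5 (ZBlk.of_rblk h)⟩
  exact ⟨hsub.trans h1, (Nat.mul_le_mul_right _ hsub).trans h2⟩

end gen

theorem zbC_dim {n : ℕ} (W : Submodule (QC ℂ) ℂ) [FiniteDimensional (QC ℂ) W]
    (hW : W ≤ Pool.Agent.H301R2.SSE.Lt)
    (hMn : n * n + 2 * n ≤ finrank (QC ℂ) W + 2)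
    (φ : Fin ((n - 1) * (n - 1) * finrank (QC ℂ) W + Cn n + 1) →
      (Matrix (Fin n) (Fin n) W →ₗ[(QC ℂ)] (QC ℂ))) :
    ∃ P : MvPolynomial (Fin ((n - 1) * (n - 1) * finrank (QC ℂ) W + Cn n + 1)) (QC ℂ), P ≠ 0 ∧
      ∀ A : Matrix (Fin n) (Fin n) W, (A.map (fun x => (x : ℂ))).det = 0 →
        ¬ ZBlk (QC ℂ) (A.map (fun x => (x : ℂ))) →
        MvPolynomial.eval (fun k => φ k A) P = 0 :=
  have := uncountable_complex
  zb_dim (Lt := Pool.Agent.H301R2.SSE.Lt) W hW hMn φ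

theorem zbC_count {n N : ℕ} (hn : 1 ≤ n) (hMn : n * n + 2 * n ≤ N + 2) (l : Fin N → ℂ)
    (halg : ∀ j, IsAlgebraic ℚ (Complex.exp (l j))) (hli : LinearIndependent ℚ l) :
    ∃ κ : ℕ, ∀ H : ℕ, 1 ≤ H →
      Set.ncard {A : Fin n → Fin n → Fin N → ℤ | (∀ i j k, |A i j k| ≤ H) ∧
        (Matrix.of fun i j => ∑ k, (A i j k : ℂ) * l k).det = 0 ∧
        ¬ ZBlk ℚ (Matrix.of fun i j => ∑ k, (A i j k : ℂ) * l k)} ≤
      κ * H ^ ((n - 1) * (n - 1) * N + Cn n) ∧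
      Set.ncard {A : Fin n → Fin n → Fin N → ℤ | (∀ i j k, |A i j k| ≤ H) ∧
        (Matrix.of fun i j => ∑ k, (A i j k : ℂ) * l k).det = 0 ∧
        ¬ ZBlk ℚ (Matrix.of fun i j => ∑ k, (A i j k : ℂ) * l k)} * H ^ ((n - 1) * N) ≤
      κ * H ^ (Cn n) * Set.ncard {A : Fin n → Fin n → Fin N → ℤ | (∀ i j k, |A i j k| ≤ H) ∧
        (Matrix.of fun i j => ∑ k, (A i j k : ℂ) * l k).det = 0} :=
  have := uncountable_complex
  zb_count (Lt := Pool.Agent.H301R2.SSE.Lt) hn hMn l (li_of_consC l (li_consC l halg hli))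
    (fun j => Pool.Agent.H301R2.SSE.Lt_log (halg j))

section padic

variable {p : ℕ} [hp : Fact p.Prime] {L : PadicAlgCl p → PadicAlgCl p}

theorem zbP_dim (hL : IsIwasawaLog p L) {n : ℕ}
    (W : Submodule (QC (PadicAlgCl p)) (PadicAlgCl p)) [FiniteDimensional (QC (PadicAlgCl p)) W]
    (hW : W ≤ LtE (logs L)) (hMn : n * n + 2 * n ≤ finrank (QC (PadicAlgCl p)) W + 2)
    (φ : Fin ((n - 1) * (n - 1) * finrank (QC (PadicAlgCl p)) W + Cn n + 1) →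
      (Matrix (Fin n) (Fin n) W →ₗ[(QC (PadicAlgCl p))] (QC (PadicAlgCl p)))) :
    ∃ P : MvPolynomial (Fin ((n - 1) * (n - 1) * finrank (QC (PadicAlgCl p)) W + Cn n + 1))
      (QC (PadicAlgCl p)), P ≠ 0 ∧
      ∀ A : Matrix (Fin n) (Fin n) W, (A.map (fun x => (x : PadicAlgCl p))).det = 0 →
        ¬ ZBlk (QC (PadicAlgCl p)) (A.map (fun x => (x : PadicAlgCl p))) →
        MvPolynomial.eval (fun k => φ k A) P = 0 := by
  have := hypC_padic hL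
  exact zb_dim (Lt := LtE (logs L)) W hW hMn φ

theorem zbP_count (hL : IsIwasawaLog p L) {n N : ℕ} (hn : 1 ≤ n)
    (hMn : n * n + 2 * n ≤ N + 2) (l : Fin N → PadicAlgCl p)
    (hl : ∀ j, ∃ α : PadicAlgCl p, α ≠ 0 ∧ IsAlgebraic ℚ α ∧ l j = L α)
    (hli : LinearIndependent ℚ l) :
    ∃ κ : ℕ, ∀ H : ℕ, 1 ≤ H →
      Set.ncard {A : Fin n → Fin n → Fin N → ℤ | (∀ i j k, |A i j k| ≤ H) ∧
        (Matrix.of fun i j => ∑ k, (A i j k : PadicAlgCl p) * l k).det = 0 ∧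
        ¬ ZBlk ℚ (Matrix.of fun i j => ∑ k, (A i j k : PadicAlgCl p) * l k)} ≤
      κ * H ^ ((n - 1) * (n - 1) * N + Cn n) ∧
      Set.ncard {A : Fin n → Fin n → Fin N → ℤ | (∀ i j k, |A i j k| ≤ H) ∧
        (Matrix.of fun i j => ∑ k, (A i j k : PadicAlgCl p) * l k).det = 0 ∧
        ¬ ZBlk ℚ (Matrix.of fun i j => ∑ k, (A i j k : PadicAlgCl p) * l k)} *
          H ^ ((n - 1) * N) ≤
      κ * H ^ (Cn n) * Set.ncard {A : Fin n → Fin n → Fin N → ℤ | (∀ i j k, |A i j k| ≤ H) ∧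
        (Matrix.of fun i j => ∑ k, (A i j k : PadicAlgCl p) * l k).det = 0} := by
  have := hypC_padic hL
  exact zb_count (Lt := LtE (logs L)) hn hMn l (li_of_cons l (li_consP hL l hl hli))
    (fun j => log_mem (hl j))

end padic

end Pool.Agent.Y787.ZB
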