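import Pool.Agent.Y787.HS.Rk
import Pool.Agent.W256.Growth

/-!
# Ranks of products of kernel vectors, improved
-/

set_option autoImplicit false

namespace Pool.Agent.Y787.ZB
open Module Pool.Agent.Y787.HS

variable {Cc : Type} [Field Cc] [CharZero Cc]

variable {K : Type} [Field K] [Algebra K Cc]

/-- if the kernel vectors `X` do not span a space which is defined over `K`, there is one more
independent product -/
theorem rank_A' {n a s : ℕ} (hK : ∀ z : Cc, IsIntegral K z → ∃ κ : K, algebraMap K Cc κ = z)
    (ha : 0 < a) (c : Fin n → Cc) (ξ : Fin a → Cc) (w : Fin a → Fin n → K)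
    (hξ : LinearIndependent K ξ) (hw : ∀ α, ξ α = ∑ i, algebraMap K Cc (w α i) * c i)
    (X : Fin s → Fin n → Cc) (hX : LinearIndependent Cc X)
    (hXK : ∀ Y : Fin s → Fin n → K, LinearIndependent K Y →
      ∃ k, (fun j => algebraMap K Cc (Y k j)) ∉ Submodule.span Cc (Set.range X)) :
    finrank K (LinearMap.ker (Th (K := K) c X)) + (a * s + 1) ≤ n * n := by
  classical
  let v : Fin n → (Fin s → Cc) := fun j t => X t j
  obtain ⟨κ, ι₀, hinj, hspan, hli⟩ := exists_linearIndependent' Cc v
  have hfin : Finite κ := Finite.of_injective ι₀ hinj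
  have _ : Fintype κ := Fintype.ofFinite κ
  have hcard : Fintype.card κ = s := by
    have h1 := finrank_span_eq_card hli
    rw [hspan] at h1
    have h2 : (Matrix.of X).rank = s := by
      have := LinearIndependent.rank_matrix (M := Matrix.of X) hX
      rwa [Fintype.card_fin] at this
    rw [Matrix.rank_eq_finrank_span_cols] at h2
    rw [← h1]
    exact h2
  -- the columns in terms of the basic columns
  have hmem : ∀ j, ∃ θ : κ → Cc, ∑ k, θ k • (v ∘ ι₀) k = v j := by
    intro j
    have h1 : v j ∈ Submodule.span Cc (Set.range (v ∘ ι₀)) := by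
      rw [hspan]
      exact Submodule.subset_span ⟨j, rfl⟩
    exact (Submodule.mem_span_range_iff_exists_fun Cc).1 h1
  choose θ hθ using hmem
  have hli' := Fintype.linearIndependent_iff.1 hli
  have hθι : ∀ k k', θ (ι₀ k) k' = if k = k' then 1 else 0 := by
    intro k k'
    have h1 : ∑ k'', (θ (ι₀ k) k'' - (if k = k'' then 1 else 0)) • (v ∘ ι₀) k'' = 0 := by
      simp only [sub_smul, Finset.sum_sub_distrib, hθ, ite_smul, one_smul, zero_smul]
      rw [Finset.sum_ite_eq]
      simp
    exact sub_eq_zero.1 (hli' _ h1 k')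
  obtain ⟨j₁, k₁, hjk⟩ : ∃ j k, ∀ x : K, algebraMap K Cc x ≠ θ j k := by
    by_contra hcon
    push Not at hcon
    choose y hy using hcon
    let e := Fintype.equivFinOfCardEq hcard
    obtain ⟨k, hk⟩ := hXK (fun t j => y j (e.symm t)) (by
      rw [Fintype.linearIndependent_iff]
      intro g hg t
      have h1 := congrFun hg (ι₀ (e.symm t))
      rw [Finset.sum_apply] at h1
      simp only [Pi.smul_apply, smul_eq_mul, Pi.zero_apply] at h1
      have h2 : ∀ t', y (ι₀ (e.symm t)) (e.symm t') = if t = t' then 1 else 0 := by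
        intro t'
        apply (algebraMap K Cc).injective
        rw [hy, hθι]
        by_cases htt : t = t'
        · subst htt
          simp
        · rw [if_neg htt, if_neg (fun h => htt (e.symm.injective h)), map_zero]
      simp only [h2] at h1
      simpa using h1)
    apply hk
    -- `X t = ∑ k, X t (ι₀ k) • θ · k`
    have hXθ : ∀ t j, X t j = ∑ k, X t (ι₀ k) * θ j k := by
      intro t j
      have h1 := congrFun (hθ j) t
      rw [Finset.sum_apply] at h1
      change X t j = _
      change _ = X t j at h1
      rw [← h1]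
      refine Finset.sum_congr rfl fun k _ => ?_
      rw [Pi.smul_apply, smul_eq_mul, mul_comm]
      rfl
    -- the matrix `X t (ι₀ k)` is invertible
    let Q : Matrix (Fin s) (Fin s) Cc := Matrix.of fun t t' => X t (ι₀ (e.symm t'))
    have hQu : IsUnit Q.det := by
      rw [← Matrix.isUnit_iff_isUnit_det]
      rw [← Matrix.linearIndependent_cols_iff_isUnit]
      have h1 : LinearIndependent Cc (fun t' => (v ∘ ι₀) (e.symm t')) :=
        hli.comp _ e.symm.injective
      exact h1
    have h3 : (fun j => algebraMap K Cc (y j (e.symm k))) =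
        ∑ t, (Q⁻¹ k t) • X t := by
      funext j
      rw [Finset.sum_apply, hy]
      simp only [Pi.smul_apply, smul_eq_mul]
      have h4 : ∀ t, X t j = ∑ t', Q t t' * θ j (e.symm t') := by
        intro t
        rw [hXθ t j]
        exact (Equiv.sum_comp e.symm (fun k => X t (ι₀ k) * θ j k)).symm
      simp only [h4, Finset.mul_sum]
      rw [Finset.sum_comm]
      have h5 : ∀ t', ∑ t, Q⁻¹ k t * (Q t t' * θ j (e.symm t')) =
          (if k = t' then 1 else 0) * θ j (e.symm t') := by
        intro t'
        rw [← Matrix.one_apply, ← Matrix.nonsing_inv_mul Q hQu, Matrix.mul_apply, Finset.sum_mul]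
        refine Finset.sum_congr rfl fun t _ => ?_
        rw [mul_assoc]
      simp only [h5]
      simp
    rw [h3]
    exact Submodule.sum_mem _ fun t _ => Submodule.smul_mem _ _ (Submodule.subset_span ⟨t, rfl⟩)
  -- one more product
  have h3 : LinearIndependent K fun p : Fin a × κ => ξ p.1 • (v ∘ ι₀) p.2 :=
    linearIndependent_smul hξ hli
  set U : Submodule K Cc := Submodule.span K (Set.range ξ) with hU
  obtain ⟨α₁, hα₁⟩ : ∃ α, ξ α * θ j₁ k₁ ∉ U := by
    by_contra h
    push Not at h
    have h1 : ∀ x ∈ U, (θ j₁ k₁) • x ∈ U := by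
      intro x hx
      rw [hU] at hx
      induction hx using Submodule.span_induction with
      | mem x hx =>
        obtain ⟨i, rfl⟩ := hx
        rw [smul_eq_mul, mul_comm]
        exact h i
      | zero => rw [smul_zero]; exact U.zero_mem
      | add x y _ _ hx hy => rw [smul_add]; exact U.add_mem hx hy
      | smul k x _ hx =>
        rw [smul_comm]
        exact U.smul_mem k hx
    have hU0 : U ≠ ⊥ := by
      intro hbot
      have h2 : ξ ⟨0, ha⟩ ∈ U := Submodule.subset_span ⟨_, rfl⟩
      rw [hbot, Submodule.mem_bot] at h2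
      exact hξ.ne_zero _ h2
    have hfg : U.FG := Submodule.fg_span (Set.finite_range ξ)
    have h2 := isIntegral_of_smul_mem_submodule (R := K) (A := Cc) (M := Cc) U hU0 hfg
      (θ j₁ k₁) h1
    obtain ⟨x, hx⟩ := hK _ h2
    exact hjk x hx
  have hmem2 : (ξ α₁ • v j₁) ∉ Submodule.span K (Set.range fun p : Fin a × κ => ξ p.1 • (v ∘ ι₀) p.2) := by
    intro hm
    obtain ⟨g, hg⟩ := (Submodule.mem_span_range_iff_exists_fun K).1 hm
    apply hα₁
    have h4 : ∑ k, (∑ α, algebraMap K Cc (g (α, k)) * ξ α - ξ α₁ * θ j₁ k) • (v ∘ ι₀) k = 0 := by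
      simp only [sub_smul, Finset.sum_sub_distrib]
      have h5 : ∑ k, (ξ α₁ * θ j₁ k) • (v ∘ ι₀) k = ξ α₁ • v j₁ := by
        rw [← hθ j₁, Finset.smul_sum]
        refine Finset.sum_congr rfl fun k _ => ?_
        rw [mul_smul]
      rw [h5, ← hg, Fintype.sum_prod_type, Finset.sum_comm]
      rw [sub_eq_zero]
      refine Finset.sum_congr rfl fun k _ => ?_
      rw [Finset.sum_smul]
      refine Finset.sum_congr rfl fun α _ => ?_
      rw [mul_smul, algebraMap_smul]
    have h6 := sub_eq_zero.1 (hli' _ h4 k₁)
    rw [← h6]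
    refine Submodule.sum_mem _ fun α _ => ?_
    rw [← Algebra.smul_def]
    exact U.smul_mem _ (Submodule.subset_span ⟨α, rfl⟩)
  have h7 : LinearIndependent K (fun o : Option (Fin a × κ) =>
      o.elim (ξ α₁ • v j₁) fun p => ξ p.1 • (v ∘ ι₀) p.2) := by
    rw [linearIndependent_option]
    exact ⟨h3, hmem2⟩
  have h4 := ker_add_card (Th (K := K) c X) _ h7 (by
    rintro (_ | ⟨α, k⟩)
    · have h5 := Th_single (K := K) c X (w α₁) j₁
      rw [← hw α₁] at h5
      exact h5
    · have h5 := Th_single (K := K) c X (w α) (ι₀ k)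
      rw [← hw α] at h5
      exact h5)
  rw [Fintype.card_option, Fintype.card_prod, Fintype.card_prod, Fintype.card_fin,
    Fintype.card_fin, hcard] at h4
  exact h4

/-- products of two spaces of dimension `n` -/
theorem rank_B' [IsAlgClosed K] {n : ℕ} (hn : 0 < n) (c d : Fin n → Cc)
    (hc : LinearIndependent K c) (hd : LinearIndependent K d) :
    finrank K (LinearMap.ker (Th (K := K) c (fun (_ : Fin 1) => d))) + (2 * n - 1) ≤ n * n := by
  classical
  set U : Submodule K Cc := Submodule.span K (Set.range c) with hU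
  set V : Submodule K Cc := Submodule.span K (Set.range d) with hV
  have hUf : FiniteDimensional K U := FiniteDimensional.span_of_finite K (Set.finite_range c)
  have hVf : FiniteDimensional K V := FiniteDimensional.span_of_finite K (Set.finite_range d)
  have hU1 : finrank K U = n := by
    rw [hU, finrank_span_eq_card hc, Fintype.card_fin]
  have hV1 : finrank K V = n := by
    rw [hV, finrank_span_eq_card hd, Fintype.card_fin]
  have hV0 : V ≠ ⊥ := by
    intro h
    rw [h, finrank_bot] at hV1
    omega
  have h1 := Pool.Agent.W256.growth_of U V hV0 1 (by omega) (by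
    intro Y hYU hY1
    have hYf : FiniteDimensional K Y := FiniteDimensional.of_finrank_pos (by omega)
    obtain ⟨y, hy, hy0⟩ : ∃ y ∈ Y, y ≠ 0 := by
      apply Submodule.exists_mem_ne_zero_of_ne_bot
      intro h
      rw [h, finrank_bot] at hY1
      omega
    have hYVf : FiniteDimensional K (Y * V : Submodule K Cc) :=
      Module.Finite.iff_fg.mpr (Submodule.FG.mul (Module.Finite.iff_fg.mp inferInstance)
        (Module.Finite.iff_fg.mp inferInstance))
    let f : V →ₗ[K] (Y * V : Submodule K Cc) := LinearMap.codRestrict _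
      ((LinearMap.mulLeft K y) ∘ₗ V.subtype) (fun x => Submodule.mul_mem_mul hy x.2)
    have hf : Function.Injective f := by
      intro x x' h
      apply Subtype.ext
      have h2 := congrArg Subtype.val h
      exact mul_left_cancel₀ hy0 h2
    have h3 := LinearMap.finrank_le_finrank_of_injective hf
    omega)
  -- the range
  have h2 := LinearMap.finrank_range_add_finrank_ker
    (Th (K := K) c (fun (_ : Fin 1) => d))
  rw [Module.finrank_fintype_fun_eq_card, Fintype.card_prod, Fintype.card_fin] at h2
  have h3 : finrank K (U * V : Submodule K Cc) ≤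
      finrank K (LinearMap.range (Th (K := K) c (fun (_ : Fin 1) => d))) := by
    let pr : (Fin 1 → Cc) →ₗ[K] Cc := LinearMap.proj 0
    have h4 : (U * V : Submodule K Cc) ≤
        (LinearMap.range (Th (K := K) c (fun (_ : Fin 1) => d))).map pr := by
      rw [hU, hV, Submodule.span_mul_span, Submodule.span_le]
      rintro _ ⟨_, ⟨i, rfl⟩, _, ⟨j, rfl⟩, rfl⟩
      refine ⟨_, ⟨Pi.single (i, j) 1, rfl⟩, ?_⟩
      change Th (K := K) c (fun (_ : Fin 1) => d) (Pi.single (i, j) 1) 0 = _
      rw [Th_apply, Finset.sum_eq_single (i, j)]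
      · rw [Pi.single_eq_same, map_one, one_mul]
      · intro p _ hp
        rw [Pi.single_eq_of_ne hp, map_zero, zero_mul]
      · intro h; exact absurd (Finset.mem_univ _) h
    exact (Submodule.finrank_mono h4).trans (Submodule.finrank_map_le _ _)
  omega

end Pool.Agent.Y787.ZB
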